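import Mathlib

set_option autoImplicit false

namespace Pool.Agent.Results.MP_66c699_al.TorsionAb

open Equiv

/-- The automorphism group of the `d`-regular rooted tree, whose vertices are the finite words over `Fin d`. -/
def AutT (d : ℕ) : Subgroup (Perm (List (Fin d))) where
  carrier := {g | (∀ v, (g v).length = v.length) ∧ ∀ v w, v <+: w ↔ g v <+: g w}
  mul_mem' := by
    rintro g h ⟨g1, g2⟩ ⟨h1, h2⟩
    exact ⟨fun v => by rw [Perm.mul_apply, g1, h1], fun v w => by rw [h2, g2]; rfl⟩
  one_mem' := ⟨fun _ => rfl, fun _ _ => Iff.rfl⟩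
  inv_mem' := by
    rintro g ⟨g1, g2⟩
    have h : ∀ v, g (g⁻¹ v) = v := fun v => g.apply_symm_apply v
    exact ⟨fun v => by rw [← g1 (g⁻¹ v), h], fun v w => by rw [g2 (g⁻¹ v), h, h]⟩

theorem length_apply {d : ℕ} (g : AutT d) (v : List (Fin d)) : (g.1 v).length = v.length := g.2.1 v

theorem apply_append {d : ℕ} (g : AutT d) (v w : List (Fin d)) :
    g.1 (v ++ w) = g.1 v ++ (g.1 (v ++ w)).drop v.length := by
  have h1 : g.1 v <+: g.1 (v ++ w) := (g.2.2 _ _).1 (List.prefix_append v w)
  have h2 := List.prefix_iff_eq_take.1 h1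
  rw [length_apply] at h2
  conv_lhs => rw [← List.take_append_drop v.length (g.1 (v ++ w)), ← h2]

/-- The section `g_v`, defined by `g (v w) = g(v) g_v(w)`. -/
def sec {d : ℕ} (g : AutT d) (v : List (Fin d)) : AutT d :=
  ⟨{ toFun := fun w => (g.1 (v ++ w)).drop v.length
     invFun := fun w => (g⁻¹.1 (g.1 v ++ w)).drop v.length
     left_inv := by
      intro w
      simp only
      rw [← apply_append]
      have h : g⁻¹.1 (g.1 (v ++ w)) = v ++ w := g.1.symm_apply_apply _
      rw [h, List.drop_left]
     right_inv := by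
      intro w
      simp only
      have h : g⁻¹.1 (g.1 v) = v := g.1.symm_apply_apply _
      have h1 := apply_append g⁻¹ (g.1 v) w
      rw [h, length_apply] at h1
      rw [← h1]
      have h2 : g.1 (g⁻¹.1 (g.1 v ++ w)) = g.1 v ++ w := g.1.apply_symm_apply _
      rw [h2, ← length_apply g v, List.drop_left] }, by
    refine ⟨fun w => ?_, fun w w' => ?_⟩
    · change ((g.1 (v ++ w)).drop v.length).length = w.length
      rw [List.length_drop, length_apply, List.length_append]; omega
    · change _ ↔ (g.1 (v ++ w)).drop v.length <+: (g.1 (v ++ w')).drop v.length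
      rw [← List.prefix_append_right_inj v, g.2.2 (v ++ w), apply_append g v w, apply_append g v w',
        List.prefix_append_right_inj, ← apply_append, ← apply_append]⟩

theorem sec_apply {d : ℕ} (g : AutT d) (v w : List (Fin d)) : g.1 (v ++ w) = g.1 v ++ (sec g v).1 w :=
  apply_append g v w

/-- Restriction of tree automorphisms to the finite subtree `T^[D]` of words of length at most `D`. -/
def restr (d D : ℕ) : AutT d →* Perm {w : List (Fin d) // w.length ≤ D} where
  toFun g := g.1.subtypePerm fun w => by rw [length_apply]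
  map_one' := by ext; rfl
  map_mul' g h := by ext; rfl

theorem sec_mul {d : ℕ} (g h : AutT d) (v : List (Fin d)) : sec (g * h) v = sec g (h.1 v) * sec h v := by
  apply Subtype.ext
  ext1 w
  have h1 := sec_apply (g * h) v w
  have h2 : (g * h).1 (v ++ w) = (g * h).1 v ++ ((sec g (h.1 v) * sec h v).1 w) := by
    change g.1 (h.1 (v ++ w)) = g.1 (h.1 v) ++ (sec g (h.1 v)).1 ((sec h v).1 w)
    rw [sec_apply h, sec_apply g]
  rw [h1] at h2
  exact List.append_cancel_left h2

theorem sec_one {d : ℕ} (v : List (Fin d)) : sec (1 : AutT d) v = 1 := by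
  apply Subtype.ext
  ext1 w
  exact List.append_cancel_left ((sec_apply (1 : AutT d) v w).symm)

theorem sec_inv {d : ℕ} (g : AutT d) (v : List (Fin d)) : sec g⁻¹ v = (sec g (g⁻¹.1 v))⁻¹ := by
  rw [eq_inv_iff_mul_eq_one]
  have h := sec_mul g⁻¹ g (g⁻¹.1 v)
  rw [inv_mul_cancel, sec_one] at h
  have h2 : g.1 (g⁻¹.1 v) = v := g.1.apply_symm_apply v
  rw [h2] at h
  exact h.symm

theorem sec_sec {d : ℕ} (g : AutT d) (v w : List (Fin d)) : sec (sec g v) w = sec g (v ++ w) := by
  apply Subtype.ext
  ext1 u
  have h1 := sec_apply g v (w ++ u)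
  have h2 := sec_apply g (v ++ w) u
  have h3 := sec_apply (sec g v) w u
  have h4 := sec_apply g v w
  rw [List.append_assoc] at h2
  rw [h1, h3, h4, List.append_assoc] at h2
  exact List.append_cancel_left (List.append_cancel_left h2)

/-- The group of finite type `G_P` of pattern depth `D`. -/
def GP (d D : ℕ) (P : Subgroup (Perm {w : List (Fin d) // w.length ≤ D})) : Subgroup (AutT d) where
  carrier := {g | ∀ v, restr d D (sec g v) ∈ P}
  mul_mem' := by
    intro g h hg hh v
    rw [sec_mul, map_mul]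
    exact mul_mem (hg _) (hh _)
  one_mem' := by
    intro v
    rw [sec_one, map_one]; exact one_mem _
  inv_mem' := by
    intro g hg v
    rw [sec_inv, map_inv]; exact inv_mem (hg _)

/-- The level stabiliser `St_G(n)`. -/
def St {d : ℕ} (G : Subgroup (AutT d)) (n : ℕ) : Subgroup (AutT d) where
  carrier := {g | g ∈ G ∧ ∀ v : List (Fin d), v.length = n → g.1 v = v}
  mul_mem' := by
    rintro g h ⟨g1, g2⟩ ⟨h1, h2⟩
    refine ⟨mul_mem g1 h1, fun v hv => ?_⟩
    change g.1 (h.1 v) = v
    rw [h2 v hv, g2 v hv]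
  one_mem' := ⟨one_mem _, fun _ _ => rfl⟩
  inv_mem' := by
    rintro g ⟨g1, g2⟩
    refine ⟨inv_mem g1, fun v hv => ?_⟩
    have h := g2 v hv
    have h2 : g⁻¹.1 (g.1 v) = v := g.1.symm_apply_apply v
    rwa [h] at h2

/-- The closure of a subgroup of `Aut T` in the topology given by the level stabilisers: `g` lies in the
closure of `H` iff on every level it agrees with some element of `H`. -/
def Cl {d : ℕ} (H : Subgroup (AutT d)) : Set (AutT d) :=
  {g | ∀ n : ℕ, ∃ h ∈ H, ∀ v : List (Fin d), v.length = n → g.1 v = h.1 v}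

/-! ### glueing -/

/-- the map acting as `k a` below the vertex `a` of level one -/
def glueFun {d : ℕ} (k : Fin d → AutT d) : List (Fin d) → List (Fin d)
  | [] => []
  | a :: w => a :: (k a).1 w

theorem glueFun_mul {d : ℕ} (k l : Fin d → AutT d) (w : List (Fin d)) :
    glueFun k (glueFun l w) = glueFun (k * l) w := by
  cases w <;> rfl

theorem glueFun_one {d : ℕ} (w : List (Fin d)) : glueFun (1 : Fin d → AutT d) w = w := by
  cases w <;> rfl

theorem glueFun_prefix {d : ℕ} (k : Fin d → AutT d) {v w : List (Fin d)} (h : v <+: w) :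
    glueFun k v <+: glueFun k w := by
  cases v with
  | nil => exact List.nil_prefix
  | cons a v =>
    cases w with
    | nil => simp at h
    | cons b w =>
      rw [List.cons_prefix_cons] at h
      obtain ⟨rfl, h⟩ := h
      exact List.cons_prefix_cons.2 ⟨rfl, ((k a).2.2 _ _).1 h⟩

/-- glueing as a homomorphism -/
def glue {d : ℕ} : (Fin d → AutT d) →* AutT d where
  toFun k := ⟨⟨glueFun k, glueFun k⁻¹, fun w => by rw [glueFun_mul, inv_mul_cancel, glueFun_one],
      fun w => by rw [glueFun_mul, mul_inv_cancel, glueFun_one]⟩, by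
    refine ⟨fun v => ?_, fun v w => ⟨glueFun_prefix k, fun h => ?_⟩⟩
    · cases v with
      | nil => rfl
      | cons a v => change (a :: (k a).1 v).length = _; simp [length_apply]
    · have := glueFun_prefix k⁻¹ h
      change glueFun k⁻¹ (glueFun k v) <+: glueFun k⁻¹ (glueFun k w) at this
      rwa [glueFun_mul, glueFun_mul, inv_mul_cancel, glueFun_one, glueFun_one] at this⟩
  map_one' := Subtype.ext (Equiv.ext fun w => glueFun_one w)
  map_mul' k l := Subtype.ext (Equiv.ext fun w => (glueFun_mul k l w).symm)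

theorem glue_cons {d : ℕ} (k : Fin d → AutT d) (a : Fin d) (w : List (Fin d)) :
    (glue k).1 (a :: w) = a :: (k a).1 w := rfl

theorem sec_glue {d : ℕ} (k : Fin d → AutT d) (a : Fin d) : sec (glue k) [a] = k a := by
  apply Subtype.ext
  ext1 w
  have h := sec_apply (glue k) [a] w
  have h1 : (glue k).1 ([a] ++ w) = [a] ++ (k a).1 w := rfl
  have h2 : (glue k).1 [a] = [a] := by
    rw [glue_cons]
    have := length_apply (k a) []
    rw [List.eq_nil_of_length_eq_zero this]
  rw [h1, h2] at h
  exact (List.append_cancel_left h).symm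

/-- the element acting as `k` below the vertex `a` -/
def io {d : ℕ} (a : Fin d) (k : AutT d) : AutT d := glue (Pi.mulSingle a k)

theorem io_mul {d : ℕ} (a : Fin d) (k l : AutT d) : io a (k * l) = io a k * io a l := by
  rw [io, Pi.mulSingle_mul, map_mul]; rfl

theorem io_cons_self {d : ℕ} (a : Fin d) (k : AutT d) (w : List (Fin d)) :
    (io a k).1 (a :: w) = a :: k.1 w := by
  rw [io, glue_cons, Pi.mulSingle_eq_same]

theorem io_cons_ne {d : ℕ} {a b : Fin d} (h : b ≠ a) (k : AutT d) (w : List (Fin d)) :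
    (io a k).1 (b :: w) = b :: w := by
  rw [io, glue_cons, Pi.mulSingle_eq_of_ne h]; rfl

/-- the action on the first letter -/
theorem exists_letter {d : ℕ} (g : AutT d) (a : Fin d) : ∃ b, g.1 [a] = [b] := by
  have := length_apply g [a]
  rw [List.length_singleton, List.length_eq_one_iff] at this
  exact this

/-- the action on the first level -/
noncomputable def topFun {d : ℕ} (g : AutT d) (a : Fin d) : Fin d := (exists_letter g a).choose

theorem topFun_spec {d : ℕ} (g : AutT d) (a : Fin d) : g.1 [a] = [topFun g a] := (exists_letter g a).choose_spec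

noncomputable def top {d : ℕ} : AutT d →* Perm (Fin d) where
  toFun g := ⟨topFun g, topFun g⁻¹, fun a => by
      have h := topFun_spec g⁻¹ (topFun g a)
      rw [← topFun_spec] at h
      have h2 : g⁻¹.1 (g.1 [a]) = [a] := g.1.symm_apply_apply _
      rw [h2] at h
      exact (List.singleton_inj.1 h).symm, fun a => by
      have h := topFun_spec g (topFun g⁻¹ a)
      rw [← topFun_spec] at h
      have h2 : g.1 (g⁻¹.1 [a]) = [a] := g.1.apply_symm_apply _
      rw [h2] at h
      exact (List.singleton_inj.1 h).symm⟩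
  map_one' := Equiv.ext fun a => (List.singleton_inj.1 (topFun_spec 1 a)).symm
  map_mul' g h := Equiv.ext fun a => by
    change topFun (g * h) a = topFun g (topFun h a)
    have h1 := topFun_spec (g * h) a
    have h2 : (g * h).1 [a] = g.1 (h.1 [a]) := rfl
    rw [h2, topFun_spec, topFun_spec] at h1
    exact (List.singleton_inj.1 h1).symm

theorem top_spec {d : ℕ} (g : AutT d) (a : Fin d) : g.1 [a] = [top g a] := topFun_spec g a

theorem apply_cons {d : ℕ} (g : AutT d) (a : Fin d) (w : List (Fin d)) :
    g.1 (a :: w) = top g a :: (sec g [a]).1 w := by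
  have := sec_apply g [a] w
  rw [top_spec] at this
  exact this

theorem apply_nil {d : ℕ} (g : AutT d) : g.1 [] = [] :=
  List.eq_nil_of_length_eq_zero (length_apply g [])

theorem ext_cons {d : ℕ} {g h : AutT d} (H : ∀ a w, g.1 (a :: w) = h.1 (a :: w)) : g = h := by
  apply Subtype.ext
  ext1 w
  cases w with
  | nil => rw [apply_nil, apply_nil]
  | cons a w => exact H a w

/-- conjugation formula -/
theorem conj_io {d : ℕ} (y k : AutT d) (a : Fin d) :
    y * io a k * y⁻¹ = io (top y a) (sec y [a] * k * (sec y [a])⁻¹) := by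
  rw [mul_inv_eq_iff_eq_mul]
  apply ext_cons
  intro b w
  change y.1 ((io a k).1 (b :: w)) = (io (top y a) _).1 (y.1 (b :: w))
  by_cases hb : b = a
  · subst hb
    rw [io_cons_self, apply_cons, apply_cons y, io_cons_self]
    congr 1
    change _ = ((sec y [b]) * k * (sec y [b])⁻¹ * (sec y [b])).1 w
    rw [inv_mul_cancel_right]; rfl
  · rw [io_cons_ne hb, apply_cons, io_cons_ne]
    exact fun h => hb ((top y).injective h)

theorem sec_letter_mul {d : ℕ} (g h : AutT d) (a : Fin d) :
    sec (g * h) [a] = sec g [top h a] * sec h [a] := by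
  rw [sec_mul, top_spec]

theorem sec_pow {d : ℕ} (u : AutT d) (a : Fin d) (hu : top u a = a) (j : ℕ) :
    sec (u ^ j) [a] = sec u [a] ^ j := by
  induction j with
  | zero => rw [pow_zero, pow_zero, sec_one]
  | succ j ih => rw [pow_succ, sec_letter_mul, hu, ih, pow_succ]

theorem eq_glue {d : ℕ} (z : AutT d) (h : ∀ a, top z a = a) : z = glue fun a => sec z [a] := by
  apply ext_cons
  intro a w
  rw [apply_cons, h, glue_cons]

/-! ### the group -/

variable {d D : ℕ} {P : Subgroup (Perm {w : List (Fin d) // w.length ≤ D})}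

theorem sec_mem {g : AutT d} (hg : g ∈ GP d D P) (v : List (Fin d)) : sec g v ∈ GP d D P := by
  intro w
  rw [sec_sec]; exact hg _

theorem fix_le {g : AutT d} {n k : ℕ} (h : ∀ v : List (Fin d), v.length = n → g.1 v = v) (hd : 0 < d)
    (hk : k ≤ n) (v : List (Fin d)) (hv : v.length = k) : g.1 v = v := by
  have h1 := h (v ++ List.replicate (n - k) ⟨0, hd⟩) (by simp; omega)
  rw [sec_apply] at h1
  exact (List.append_inj h1 (length_apply g v)).1

theorem glue_mem (hD : 1 ≤ D) (hd : 0 < d) {k : Fin d → AutT d} {n : ℕ} (hn : D - 1 ≤ n)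
    (hk : ∀ a, k a ∈ St (GP d D P) n) : glue k ∈ St (GP d D P) (n + 1) := by
  have hfix : ∀ v : List (Fin d), v.length = n + 1 → (glue k).1 v = v := by
    intro v hv
    cases v with
    | nil => simp at hv
    | cons a v =>
      rw [glue_cons, (hk a).2 v (by simpa using hv)]
  refine ⟨fun v => ?_, hfix⟩
  cases v with
  | nil =>
    have : restr d D (sec (glue k) []) = 1 := by
      ext1 ⟨w, hw⟩
      apply Subtype.ext
      change (sec (glue k) []).1 w = w
      have h1 := sec_apply (glue k) [] w
      rw [apply_nil, List.nil_append, List.nil_append] at h1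
      rw [← h1]
      exact fix_le hfix hd (by omega) w rfl
    rw [this]; exact one_mem _
  | cons a v =>
    have : sec (glue k) (a :: v) = sec (k a) v := by
      have h1 := sec_sec (glue k) [a] v
      rw [sec_glue] at h1
      exact h1.symm
    rw [this]
    exact (hk a).1 v

theorem St_anti (hd : 0 < d) {G : Subgroup (AutT d)} {n k : ℕ} (h : k ≤ n) : St G n ≤ St G k :=
  fun _ hg => ⟨hg.1, fun v hv => fix_le hg.2 hd h v hv⟩

theorem io_mem (hD : 1 ≤ D) (hd : 0 < d) {k : AutT d} {n : ℕ} (hn : D - 1 ≤ n)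
    (hk : k ∈ St (GP d D P) n) (a : Fin d) : io a k ∈ St (GP d D P) (n + 1) := by
  refine glue_mem hD hd hn fun b => ?_
  by_cases h : b = a
  · subst h; rw [Pi.mulSingle_eq_same]; exact hk
  · rw [Pi.mulSingle_eq_of_ne h]; exact one_mem _

theorem io_mem' (hD : 1 ≤ D) (hd : 0 < d) {k : AutT d}
    (hk : k ∈ St (GP d D P) (D - 1)) (a : Fin d) : io a k ∈ St (GP d D P) (D - 1) :=
  St_anti hd (by omega) (io_mem hD hd le_rfl hk a)

theorem St_conj {G : Subgroup (AutT d)} {n : ℕ} {y k : AutT d} (hy : y ∈ G) (hk : k ∈ St G n) :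
    y * k * y⁻¹ ∈ St G n := by
  refine ⟨mul_mem (mul_mem hy hk.1) (inv_mem hy), fun v hv => ?_⟩
  change y.1 (k.1 (y⁻¹.1 v)) = v
  rw [hk.2 _ (by rw [length_apply, hv])]
  exact y.1.apply_symm_apply v

/-! ### orbit sums -/

theorem prod_eq_one {α A : Type} [Fintype α] [DecidableEq α] [CommGroup A] (y : Perm α) (g : α → A)
    (h1 : ∀ a, g (y a) = g a) (h2 : ∀ a, g a ^ Function.minimalPeriod y a = 1) : ∏ a, g a = 1 := by
  classical
  have e := MulAction.selfEquivSigmaOrbits (Subgroup.zpowers y) α
  have key : ∀ (ω : MulAction.orbitRel.Quotient (Subgroup.zpowers y) α),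
      ∏ a : {a // (Quotient.mk'' a : MulAction.orbitRel.Quotient (Subgroup.zpowers y) α) = ω}, g a.1 = 1 := by
    intro ω
    induction ω using Quotient.inductionOn' with
    | h a0 =>
      have hconst : ∀ a : {a // (Quotient.mk'' a : MulAction.orbitRel.Quotient (Subgroup.zpowers y) α) = Quotient.mk'' a0},
          g a.1 = g a0 := by
        rintro ⟨a, ha⟩
        have h3 : a ∈ MulAction.orbit (Subgroup.zpowers y) a0 := by
          rw [← MulAction.orbitRel_apply]; exact Quotient.eq''.1 ha
        obtain ⟨⟨_, ⟨k, rfl⟩⟩, rfl⟩ := h3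
        change g ((y ^ k) a0) = g a0
        have h4 : ∀ k : ℕ, ∀ b, g ((y ^ k) b) = g b := by
          intro k
          induction k with
          | zero => intro b; rfl
          | succ k ih => intro b; rw [pow_succ', Perm.mul_apply, h1, ih]
        cases k with
        | ofNat k => exact h4 k a0
        | negSucc k =>
          rw [zpow_negSucc]
          rw [← h4 (k + 1) ((y ^ (k + 1))⁻¹ a0)]
          congr 1
          exact (y ^ (k + 1)).apply_symm_apply a0
      rw [Finset.prod_congr rfl fun a _ => hconst a, Finset.prod_const, Finset.card_univ]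
      have hcard : Fintype.card {a // (Quotient.mk'' a : MulAction.orbitRel.Quotient (Subgroup.zpowers y) α) = Quotient.mk'' a0}
          = Function.minimalPeriod y a0 := by
        have h5 := MulAction.minimalPeriod_eq_card (a := y) (b := a0)
        change Function.minimalPeriod y a0 = _ at h5
        rw [h5]
        apply Fintype.card_congr
        refine Equiv.subtypeEquivRight fun a => ?_
        rw [← MulAction.orbitRel_apply]
        exact Quotient.eq''
      rw [hcard, h2]
  rw [← Fintype.prod_fiberwise (fun a => (Quotient.mk'' a : MulAction.orbitRel.Quotient (Subgroup.zpowers y) α)) g]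
  exact Finset.prod_eq_one fun ω _ => key ω

theorem f_one {A : Type} [CommGroup A] {K : Subgroup (AutT d)} {f : AutT d → A}
    (hmul : ∀ k ∈ K, ∀ k' ∈ K, f (k * k') = f k * f k') : f 1 = 1 := by
  have := hmul 1 (one_mem _) 1 (one_mem _)
  rw [mul_one] at this
  exact (left_eq_mul.1 this)

theorem f_pow {A : Type} [CommGroup A] {K : Subgroup (AutT d)} {f : AutT d → A}
    (hmul : ∀ k ∈ K, ∀ k' ∈ K, f (k * k') = f k * f k') {k : AutT d} (hk : k ∈ K) (j : ℕ) :
    f (k ^ j) = f k ^ j := by
  induction j with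
  | zero => rw [pow_zero, pow_zero, f_one hmul]
  | succ j ih => rw [pow_succ, hmul _ (pow_mem hk j) _ hk, ih, pow_succ]

theorem f_glue {A : Type} [CommGroup A] (hD : 1 ≤ D) (hd : 0 < d) {f : AutT d → A}
    (hmul : ∀ k ∈ St (GP d D P) (D - 1), ∀ k' ∈ St (GP d D P) (D - 1), f (k * k') = f k * f k')
    {κ : Fin d → AutT d} (hκ : ∀ a, κ a ∈ St (GP d D P) (D - 1)) : f (glue κ) = ∏ a, f (io a (κ a)) := by
  have key : ∀ S : Finset (Fin d), f (glue fun a => if a ∈ S then κ a else 1) = ∏ a ∈ S, f (io a (κ a)) := by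
    intro S
    induction S using Finset.induction_on with
    | empty =>
      simp only [Finset.notMem_empty, if_false, Finset.prod_empty]
      have : (fun _ => 1 : Fin d → AutT d) = 1 := rfl
      rw [this, map_one, f_one hmul]
    | insert b S hb ih =>
      rw [Finset.prod_insert hb, ← ih, ← hmul _ (io_mem' hD hd (hκ b) b)]
      · rw [io, ← map_mul]
        congr 2
        funext a
        rw [Pi.mul_apply]
        by_cases hab : a = b
        · subst hab
          rw [if_pos (Finset.mem_insert_self _ _), Pi.mulSingle_eq_same, if_neg hb, mul_one]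
        · rw [Pi.mulSingle_eq_of_ne hab, one_mul]
          simp [hab]
      · refine St_anti hd (Nat.le_succ _) (glue_mem hD hd le_rfl fun a => ?_)
        split_ifs
        · exact hκ a
        · exact one_mem _
  have := key Finset.univ
  simpa using this

theorem key (hD : 1 ≤ D) (hd : 0 < d) {m : ℕ}
    (hm : ∀ y ∈ GP d D P, y ^ m ∈ St (GP d D P) (max (D - 1) 1)) :
    ∀ (N : ℕ) {A : Type} [CommGroup A] (f : AutT d → A)
      (_ : ∀ k ∈ St (GP d D P) (D - 1), ∀ k' ∈ St (GP d D P) (D - 1), f (k * k') = f k * f k')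
      (_ : ∀ k ∈ St (GP d D P) (N + (D - 1)), f k = 1) (y : AutT d) (_ : y ∈ GP d D P)
      (_ : ∀ k ∈ St (GP d D P) (D - 1), f (y * k * y⁻¹) = f k), f (y ^ m) ^ m = 1 := by
  intro N
  induction N with
  | zero =>
    intro A _ f hmul hkill y hy hconj
    rw [hkill _ (by rw [zero_add]; exact St_anti hd (le_max_left _ _) (hm y hy)), one_pow]
  | succ N ih =>
    intro A _ f hmul hkill y hy hconj
    have hz := hm y hy
    have hz1 : ∀ a, top (y ^ m) a = a := by
      intro a
      have h1 := fix_le hz.2 hd (le_max_right _ _) [a] rfl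
      rw [top_spec] at h1
      exact List.singleton_inj.1 h1
    have hzK : y ^ m ∈ St (GP d D P) (D - 1) := St_anti hd (le_max_left _ _) hz
    rw [← f_pow hmul hzK]
    have hκ : ∀ a, sec (y ^ m) [a] ^ m ∈ St (GP d D P) (D - 1) := fun a =>
      St_anti hd (le_max_left _ _) (hm _ (sec_mem hz.1 _))
    have h1 : (y ^ m) ^ m = glue fun a => sec (y ^ m) [a] ^ m := by
      conv_lhs => rw [eq_glue (y ^ m) hz1]
      rw [← map_pow]
      rfl
    rw [h1, f_glue hD hd hmul hκ]
    refine prod_eq_one (top y) _ (fun a => ?_) (fun a => ?_)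
    · rw [← hconj _ (io_mem' hD hd (hκ a) a), conj_io]
      congr 2
      have h2 := sec_letter_mul y (y ^ m) a
      have h3 := sec_letter_mul (y ^ m) y a
      rw [hz1] at h2
      rw [← pow_succ'] at h2
      rw [← pow_succ, h2] at h3
      have h4 : sec (y ^ m) [top y a] = sec y [a] * sec (y ^ m) [a] * (sec y [a])⁻¹ := by
        rw [h3, mul_inv_cancel_right]
      rw [h4, conj_pow]
    · set p := Function.minimalPeriod (top y) a with hp
      have hup : top (y ^ p) a = a := by
        rw [map_pow]
        have h2 := Function.iterate_minimalPeriod (f := top y) (x := a)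
        rw [← hp, ← Perm.coe_pow] at h2
        exact h2
      have hdvd : p ∣ m := by
        apply Function.IsPeriodicPt.minimalPeriod_dvd
        have h2 := hz1 a
        rw [map_pow] at h2
        rw [Function.IsPeriodicPt, Function.IsFixedPt, ← Perm.coe_pow]
        exact h2
      obtain ⟨q, hq⟩ := hdvd
      have ht : sec (y ^ p) [a] ∈ GP d D P := sec_mem (pow_mem hy p) _
      have htm : sec (y ^ p) [a] ^ m ∈ St (GP d D P) (D - 1) := St_anti hd (le_max_left _ _) (hm _ ht)
      have h2 : sec (y ^ m) [a] ^ m = (sec (y ^ p) [a] ^ m) ^ q := by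
        have h3 : y ^ m = (y ^ p) ^ q := by rw [← pow_mul, ← hq]
        rw [h3, sec_pow _ _ hup, ← pow_mul, ← pow_mul, mul_comm]
      have hmula : ∀ k ∈ St (GP d D P) (D - 1), ∀ k' ∈ St (GP d D P) (D - 1),
          f (io a (k * k')) = f (io a k) * f (io a k') := by
        intro k hk k' hk'
        rw [io_mul, hmul _ (io_mem' hD hd hk a) _ (io_mem' hD hd hk' a)]
      have hiter : ∀ j : ℕ, ∀ k ∈ St (GP d D P) (D - 1), f (y ^ j * k * (y ^ j)⁻¹) = f k := by
        intro j
        induction j with
        | zero => intro k hk; simp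
        | succ j ihj =>
          intro k hk
          rw [← ihj k hk, ← hconj _ (St_conj (pow_mem hy j) hk)]
          congr 1
          rw [pow_succ', mul_inv_rev]
          group
      have h5 := ih (fun k => f (io a k)) hmula (fun k hk => hkill _ (by
          have := io_mem hD hd (by omega) hk a
          rwa [show N + (D - 1) + 1 = N + 1 + (D - 1) by omega] at this)) (sec (y ^ p) [a]) ht (by
          intro k hk
          rw [← hiter p _ (io_mem' hD hd hk a), conj_io, hup])
      rw [h2, f_pow (f := fun k => f (io a k)) hmula htm, ← pow_mul, mul_comm q p, ← hq]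
      exact h5

/-- action on a level -/
def rho (d M : ℕ) : AutT d →* Perm {w : List (Fin d) // w.length = M} where
  toFun g := g.1.subtypePerm fun w => by rw [length_apply]
  map_one' := by ext; rfl
  map_mul' g h := by ext; rfl

/-- For every group of finite type `G = G_P` of pattern depth `D` on the `d`-regular rooted tree, the
quotient of `St_G(D - 1)` by the closure of its commutator subgroup is a torsion group, of bounded exponent. -/
theorem result (d D : ℕ) (hd : 2 ≤ d) (hD : 1 ≤ D)
    (P : Subgroup (Perm {w : List (Fin d) // w.length ≤ D})) :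
    ∃ k : ℕ, 0 < k ∧ ∀ g ∈ St (GP d D P) (D - 1),
      g ^ k ∈ Cl ⁅St (GP d D P) (D - 1), St (GP d D P) (D - 1)⁆ := by
  have hfin : Finite {w : List (Fin d) // w.length = max (D - 1) 1} :=
    (List.finite_length_eq (Fin d) (max (D - 1) 1)).to_subtype
  set m := Nat.card (Perm {w : List (Fin d) // w.length = max (D - 1) 1}) with hmdef
  have hm0 : 0 < m := Nat.card_pos
  have hm : ∀ y ∈ GP d D P, y ^ m ∈ St (GP d D P) (max (D - 1) 1) := by
    intro y hy
    refine ⟨pow_mem hy m, fun v hv => ?_⟩
    have h1 : rho d (max (D - 1) 1) (y ^ m) = 1 := by rw [map_pow, hmdef, pow_card_eq_one']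
    exact congrArg (fun q : Perm {w : List (Fin d) // w.length = max (D - 1) 1} => (q ⟨v, hv⟩).1) h1
  refine ⟨m * m, Nat.mul_pos hm0 hm0, fun g hg n => ?_⟩
  classical
  set K := St (GP d D P) (D - 1) with hK
  let S' : Subgroup K := (St (GP d D P) (n + (D - 1))).subgroupOf K
  let A := Abelianization K ⧸ (S'.map Abelianization.of)
  let F : K →* A := (QuotientGroup.mk' (S'.map Abelianization.of)).comp Abelianization.of
  let f : AutT d → A := fun x => if h : x ∈ K then F ⟨x, h⟩ else 1
  have hf : ∀ x (h : x ∈ K), f x = F ⟨x, h⟩ := fun x h => dif_pos h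
  have h1 := key hD (by omega) hm n f (by
      intro k hk k' hk'
      rw [hf k hk, hf k' hk', hf _ (mul_mem hk hk'), ← map_mul]; rfl) (by
      intro k hk
      have hkK : k ∈ K := St_anti (by omega) (by omega) hk
      rw [hf k hkK]
      change QuotientGroup.mk' _ (Abelianization.of (⟨k, hkK⟩ : K)) = 1
      rw [QuotientGroup.mk'_apply, QuotientGroup.eq_one_iff]
      exact ⟨⟨k, hkK⟩, hk, rfl⟩) g hg.1 (by
      intro k hk
      have h2 : g * k * g⁻¹ ∈ K := mul_mem (mul_mem hg hk) (inv_mem hg)
      rw [hf _ h2, hf _ hk]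
      have h3 : (⟨g * k * g⁻¹, h2⟩ : K) = ⟨g, hg⟩ * ⟨k, hk⟩ * ⟨g, hg⟩⁻¹ := rfl
      rw [h3, map_mul, map_mul, map_inv, mul_comm (F ⟨g, hg⟩), mul_inv_cancel_right])
  have hgm : g ^ m ∈ K := pow_mem hg m
  have hgmm : g ^ (m * m) ∈ K := pow_mem hg _
  rw [hf _ hgm, ← map_pow] at h1
  have h2 : (⟨g ^ m, hgm⟩ : K) ^ m = ⟨g ^ (m * m), hgmm⟩ := Subtype.ext (pow_mul g m m).symm
  rw [h2] at h1
  change QuotientGroup.mk' _ (Abelianization.of (⟨g ^ (m * m), hgmm⟩ : K)) = 1 at h1
  rw [QuotientGroup.mk'_apply, QuotientGroup.eq_one_iff] at h1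
  obtain ⟨s, hs, hs'⟩ := h1
  have h3 : (⟨g ^ (m * m), hgmm⟩ : K) * s⁻¹ ∈ commutator K := by
    have h4 : Abelianization.of ((⟨g ^ (m * m), hgmm⟩ : K) * s⁻¹) = 1 := by
      rw [map_mul, map_inv, ← hs', mul_inv_cancel]
    have h5 := (MonoidHom.mem_ker).2 h4
    rwa [Abelianization.ker_of] at h5
  have h4 : (g ^ (m * m)) * (s.1)⁻¹ ∈ ⁅K, K⁆ := by
    have h5 : K.subtype ((⟨g ^ (m * m), hgmm⟩ : K) * s⁻¹) ∈ (commutator K).map K.subtype := ⟨_, h3, rfl⟩
    rw [Subgroup.map_subtype_commutator] at h5
    exact h5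
  refine ⟨_, h4, fun v hv => ?_⟩
  change _ = (g ^ (m * m)).1 ((s.1)⁻¹.1 v)
  have h5 : (s.1)⁻¹ ∈ St (GP d D P) (n + (D - 1)) := inv_mem (Subgroup.mem_subgroupOf.1 hs)
  rw [(St_anti (k := n) (by omega) (by omega) h5).2 v hv]

end Pool.Agent.Results.MP_66c699_al.TorsionAb
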